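import Mathlib

/-!
# The Thue-Morse partition does not minimise the next power-sum defect (MP_f4b4d0_co, Q1)

For `n ≥ 7` there is a partition `S ∪ T` of `{0, …, 2 ^ n - 1}` with equal power sums for all
exponents `< n` whose defect (difference of the `n`-th power sums) is in absolute value strictly
smaller than the defect of the Thue-Morse partition.
-/

set_option autoImplicit false

open Finset

namespace Pool.Agent.Results.MP_f4b4d0_co.ThueMorseNotMinimal

/-- The partition of `{0, …, 2 ^ n - 1}` into `S` and its complement has property `P_n`: the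
`i`-th power sums of the two parts agree for all `0 ≤ i < n` (here `0 ^ 0 = 1`). -/
def HasP (n : ℕ) (S : Finset ℕ) : Prop :=
  ∀ i < n, ∑ s ∈ S, s ^ i = ∑ t ∈ range (2 ^ n) \ S, t ^ i

/-- The defect of the partition of `{0, …, 2 ^ n - 1}` into `S` and its complement. -/
def defect (n : ℕ) (S : Finset ℕ) : ℤ :=
  ∑ s ∈ S, (s : ℤ) ^ n - ∑ t ∈ range (2 ^ n) \ S, (t : ℤ) ^ n

/-- The part `S_TM` of the Thue-Morse partition of `{0, …, 2 ^ n - 1}`: the numbers with an even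
number of ones in their binary expansion. -/
def thueMorse (n : ℕ) : Finset ℕ :=
  (range (2 ^ n)).filter fun k => Even (Nat.digits 2 k).sum

/-- signed moments of a sign function -/
def mom (e : ℕ → ℤ) (N i : ℕ) : ℤ := ∑ k ∈ range N, e k * (k : ℤ) ^ i

/-- sign function of a set -/
def sg (S : Finset ℕ) (k : ℕ) : ℤ := if k ∈ S then 1 else -1

lemma mom_sg (N i : ℕ) (S : Finset ℕ) (hS : S ⊆ range N) :
    mom (sg S) N i = ∑ s ∈ S, (s : ℤ) ^ i - ∑ t ∈ range N \ S, (t : ℤ) ^ i := by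
  unfold mom
  rw [← Finset.sum_sdiff hS]
  have h1 : ∑ k ∈ range N \ S, sg S k * (k : ℤ) ^ i = - ∑ t ∈ range N \ S, (t : ℤ) ^ i := by
    rw [← Finset.sum_neg_distrib]
    apply Finset.sum_congr rfl
    intro k hk
    rw [sg, if_neg (Finset.mem_sdiff.1 hk).2]; ring
  have h2 : ∑ k ∈ S, sg S k * (k : ℤ) ^ i = ∑ t ∈ S, (t : ℤ) ^ i := by
    apply Finset.sum_congr rfl
    intro k hk
    rw [sg, if_pos hk]; ring
  rw [h1, h2]; ring

lemma hasP_iff (n : ℕ) (S : Finset ℕ) (hS : S ⊆ range (2 ^ n)) :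
    HasP n S ↔ ∀ i < n, mom (sg S) (2 ^ n) i = 0 := by
  unfold HasP
  refine forall_congr' fun i => imp_congr_right fun _ => ?_
  rw [mom_sg _ _ _ hS, sub_eq_zero]
  constructor
  · intro h; exact_mod_cast h
  · intro h; exact_mod_cast h

lemma defect_eq (n : ℕ) (S : Finset ℕ) (hS : S ⊆ range (2 ^ n)) :
    defect n S = mom (sg S) (2 ^ n) n := by
  rw [mom_sg _ _ _ hS]; rfl

/-- doubling a sign function: repeat with opposite signs -/
lemma mom_double (e f : ℕ → ℤ) (N : ℕ) (h1 : ∀ k < N, f k = e k) (h2 : ∀ k < N, f (N + k) = - e k)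
    (m : ℕ) (hm : ∀ i < m, mom e N i = 0) :
    (∀ i < m + 1, mom f (N + N) i = 0) ∧
      mom f (N + N) (m + 1) = - ((m + 1 : ℕ) * (N : ℤ) * mom e N m) := by
  have key : ∀ j : ℕ, mom f (N + N) j
      = - ∑ i ∈ range j, (N : ℤ) ^ (j - i) * (j.choose i : ℤ) * mom e N i := by
    intro j
    unfold mom
    rw [Finset.sum_range_add]
    have e1 : ∑ x ∈ range N, f x * (x : ℤ) ^ j = ∑ x ∈ range N, e x * (x : ℤ) ^ j :=
      Finset.sum_congr rfl fun x hx => by rw [h1 x (Finset.mem_range.1 hx)]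
    have e2 : ∑ x ∈ range N, f (N + x) * ((N + x : ℕ) : ℤ) ^ j
        = - ∑ x ∈ range N, e x * (x : ℤ) ^ j
          - ∑ x ∈ range N, ∑ i ∈ range j, (N : ℤ) ^ (j - i) * (j.choose i : ℤ) *
              (e x * (x : ℤ) ^ i) := by
      rw [← Finset.sum_neg_distrib, ← Finset.sum_sub_distrib]
      refine Finset.sum_congr rfl fun x hx => ?_
      rw [h2 x (Finset.mem_range.1 hx)]
      push_cast
      rw [add_comm (N : ℤ) (x : ℤ), add_pow, Finset.sum_range_succ, Nat.choose_self, Nat.sub_self,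
        mul_add, Finset.mul_sum]
      have : ∑ i ∈ range j, -e x * ((x : ℤ) ^ i * (N : ℤ) ^ (j - i) * (j.choose i : ℤ))
          = - ∑ i ∈ range j, (N : ℤ) ^ (j - i) * (j.choose i : ℤ) * (e x * (x : ℤ) ^ i) := by
        rw [← Finset.sum_neg_distrib]
        exact Finset.sum_congr rfl fun i _ => by ring
      rw [this]
      push_cast
      ring
    rw [e1, e2, Finset.sum_comm]
    have e3 : ∀ i ∈ range j, ∑ x ∈ range N, (N : ℤ) ^ (j - i) * (j.choose i : ℤ) *
        (e x * (x : ℤ) ^ i) = (N : ℤ) ^ (j - i) * (j.choose i : ℤ) *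
          ∑ x ∈ range N, e x * (x : ℤ) ^ i := fun i _ => by rw [Finset.mul_sum]
    rw [Finset.sum_congr rfl e3]
    ring
  constructor
  · intro i hi
    rw [key]
    rw [Finset.sum_eq_zero]
    · simp
    · intro t ht
      rw [hm t (by have := Finset.mem_range.1 ht; omega)]
      simp
  · rw [key, Finset.sum_range_succ, Finset.sum_eq_zero]
    · have : m + 1 - m = 1 := by omega
      rw [this, Nat.choose_succ_self_right]
      push_cast
      ring
    · intro t ht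
      rw [hm t (by have := Finset.mem_range.1 ht; omega)]
      simp

/-- the doubled set -/
def dbl (n : ℕ) (S : Finset ℕ) : Finset ℕ :=
  (range (2 ^ (n + 1))).filter fun k => (k ∈ S ∧ k < 2 ^ n) ∨ (2 ^ n ≤ k ∧ k - 2 ^ n ∉ S)

lemma dbl_subset (n : ℕ) (S : Finset ℕ) : dbl n S ⊆ range (2 ^ (n + 1)) := Finset.filter_subset _ _

lemma sg_dbl_low (n : ℕ) (S : Finset ℕ) (k : ℕ) (hk : k < 2 ^ n) : sg (dbl n S) k = sg S k := by
  have h : k < 2 ^ (n + 1) := by rw [pow_succ]; omega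
  unfold sg dbl
  have : (k ∈ (range (2 ^ (n + 1))).filter fun k => (k ∈ S ∧ k < 2 ^ n) ∨
      (2 ^ n ≤ k ∧ k - 2 ^ n ∉ S)) ↔ k ∈ S := by
    rw [Finset.mem_filter, Finset.mem_range]
    constructor
    · rintro ⟨-, h | h⟩
      · exact h.1
      · omega
    · intro h'
      exact ⟨h, Or.inl ⟨h', hk⟩⟩
  simp only [this]

lemma sg_dbl_high (n : ℕ) (S : Finset ℕ) (k : ℕ) (hk : k < 2 ^ n) :
    sg (dbl n S) (2 ^ n + k) = - sg S k := by
  have h : 2 ^ n + k < 2 ^ (n + 1) := by rw [pow_succ]; omega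
  unfold sg dbl
  have : (2 ^ n + k ∈ (range (2 ^ (n + 1))).filter fun k => (k ∈ S ∧ k < 2 ^ n) ∨
      (2 ^ n ≤ k ∧ k - 2 ^ n ∉ S)) ↔ k ∉ S := by
    rw [Finset.mem_filter, Finset.mem_range]
    constructor
    · rintro ⟨-, h | h⟩
      · omega
      · have := h.2
        rwa [Nat.add_sub_cancel_left] at this
    · intro h'
      refine ⟨h, Or.inr ⟨Nat.le_add_right _ _, ?_⟩⟩
      rwa [Nat.add_sub_cancel_left]
  simp only [this]
  by_cases hk : k ∈ S <;> simp [hk]

lemma double (n : ℕ) (S : Finset ℕ) (hm : ∀ i < n, mom (sg S) (2 ^ n) i = 0) :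
    (∀ i < n + 1, mom (sg (dbl n S)) (2 ^ (n + 1)) i = 0) ∧
      mom (sg (dbl n S)) (2 ^ (n + 1)) (n + 1)
        = - ((n + 1 : ℕ) * ((2 ^ n : ℕ) : ℤ) * mom (sg S) (2 ^ n) n) := by
  have h := mom_double (sg S) (sg (dbl n S)) (2 ^ n) (fun k hk => sg_dbl_low n S k hk)
    (fun k hk => sg_dbl_high n S k hk) n hm
  have e : 2 ^ n + 2 ^ n = 2 ^ (n + 1) := by rw [pow_succ]; ring
  rw [e] at h
  exact h

/-! ### The Thue-Morse sets double -/

lemma digits_sum_step (m : ℕ) :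
    (Nat.digits 2 m).sum = m % 2 + (Nat.digits 2 (m / 2)).sum := by
  rcases Nat.eq_zero_or_pos m with rfl | h
  · simp
  · rw [Nat.digits_def' (by norm_num) h, List.sum_cons]

lemma digits_sum_add (n k : ℕ) (hk : k < 2 ^ n) :
    (Nat.digits 2 (2 ^ n + k)).sum = (Nat.digits 2 k).sum + 1 := by
  induction n generalizing k with
  | zero =>
    have : k = 0 := by simpa using hk
    subst this
    simp
  | succ n ih =>
    have h1 : (2 ^ (n + 1) + k) % 2 = k % 2 := by rw [pow_succ]; omega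
    have h2 : (2 ^ (n + 1) + k) / 2 = 2 ^ n + k / 2 := by rw [pow_succ]; omega
    rw [digits_sum_step (2 ^ (n + 1) + k), h1, h2, ih (k / 2) (by rw [pow_succ] at hk; omega),
      digits_sum_step k]
    ring

lemma sg_tm_low (n : ℕ) (k : ℕ) (hk : k < 2 ^ n) :
    sg (thueMorse (n + 1)) k = sg (thueMorse n) k := by
  have h : k < 2 ^ (n + 1) := by rw [pow_succ]; omega
  simp only [sg, thueMorse, Finset.mem_filter, Finset.mem_range, hk, h, true_and]

lemma sg_tm_high (n : ℕ) (k : ℕ) (hk : k < 2 ^ n) :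
    sg (thueMorse (n + 1)) (2 ^ n + k) = - sg (thueMorse n) k := by
  have h : 2 ^ n + k < 2 ^ (n + 1) := by rw [pow_succ]; omega
  simp only [sg, thueMorse, Finset.mem_filter, Finset.mem_range, hk, h, true_and,
    digits_sum_add n k hk, Nat.even_add_one]
  by_cases h' : Even (Nat.digits 2 k).sum <;> simp [h']

lemma tm_double (n : ℕ) (hm : ∀ i < n, mom (sg (thueMorse n)) (2 ^ n) i = 0) :
    (∀ i < n + 1, mom (sg (thueMorse (n + 1))) (2 ^ (n + 1)) i = 0) ∧
      mom (sg (thueMorse (n + 1))) (2 ^ (n + 1)) (n + 1)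
        = - ((n + 1 : ℕ) * ((2 ^ n : ℕ) : ℤ) * mom (sg (thueMorse n)) (2 ^ n) n) := by
  have h := mom_double (sg (thueMorse n)) (sg (thueMorse (n + 1))) (2 ^ n)
    (fun k hk => sg_tm_low n k hk) (fun k hk => sg_tm_high n k hk) n hm
  have e : 2 ^ n + 2 ^ n = 2 ^ (n + 1) := by rw [pow_succ]; ring
  rw [e] at h
  exact h

lemma tm_zero : ∀ n, ∀ i < n, mom (sg (thueMorse n)) (2 ^ n) i = 0
  | 0 => fun _ hi => absurd hi (Nat.not_lt_zero _)
  | n + 1 => (tm_double n (tm_zero n)).1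

/-- bit mask of the special part for `n = 7` -/
def mask : ℕ := 0x65b19a4b2ed6c124db7c948b2da67259

/-- the special part for `n = 7` -/
def S7 : Finset ℕ := (range (2 ^ 7)).filter fun k => Nat.testBit mask k

/-- moments by recursion, for evaluation -/
def ev (p : ℕ → Bool) (i : ℕ) : ℕ → ℤ
  | 0 => 0
  | k + 1 => ev p i k + (if p k then (k : ℤ) ^ i else - (k : ℤ) ^ i)

lemma ev_eq (p : ℕ → Bool) (i N : ℕ) (S : Finset ℕ) (hS : ∀ k < N, k ∈ S ↔ p k = true) :
    mom (sg S) N i = ev p i N := by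
  induction N with
  | zero => rfl
  | succ N ih =>
    have ih := ih fun k hk => hS k (by omega)
    unfold mom at ih ⊢
    rw [Finset.sum_range_succ, ih, ev, sg]
    by_cases h : N ∈ S
    · rw [if_pos h, if_pos ((hS N (by omega)).1 h)]; ring
    · rw [if_neg h, if_neg (fun h' => h ((hS N (by omega)).2 h'))]; ring

lemma S7_ev (i : ℕ) : mom (sg S7) (2 ^ 7) i = ev (Nat.testBit mask) i (2 ^ 7) :=
  ev_eq _ _ _ _ fun k hk => by
    unfold S7
    rw [Finset.mem_filter]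
    exact ⟨fun h => h.2, fun h => ⟨Finset.mem_range.2 hk, h⟩⟩

lemma S7_zero : ∀ i < 7, mom (sg S7) (2 ^ 7) i = 0 := by
  intro i hi
  rw [S7_ev]
  interval_cases i <;> decide +kernel

lemma S7_def : mom (sg S7) (2 ^ 7) 7 = -8419461120 := by
  rw [S7_ev]; decide +kernel

lemma tm7_def : mom (sg (thueMorse 7)) (2 ^ 7) 7 = -10569646080 := by
  have h : ∀ n, mom (sg (thueMorse (n + 1))) (2 ^ (n + 1)) (n + 1)
        = - ((n + 1 : ℕ) * ((2 ^ n : ℕ) : ℤ) * mom (sg (thueMorse n)) (2 ^ n) n) :=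
    fun n => (tm_double n (tm_zero n)).2
  have h0 : mom (sg (thueMorse 0)) (2 ^ 0) 0 = 1 := by decide
  rw [h 6, h 5, h 4, h 3, h 2, h 1, h 0, h0]
  norm_num

/-- iterated doubling -/
def Sn : ℕ → Finset ℕ
  | 0 => S7
  | m + 1 => dbl (7 + m) (Sn m)

lemma Sn_subset : ∀ m, Sn m ⊆ range (2 ^ (7 + m))
  | 0 => Finset.filter_subset _ _
  | m + 1 => dbl_subset _ _

lemma Sn_zero : ∀ m, ∀ i < 7 + m, mom (sg (Sn m)) (2 ^ (7 + m)) i = 0
  | 0 => S7_zero
  | m + 1 => (double (7 + m) (Sn m) (Sn_zero m)).1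

lemma Sn_lt : ∀ m, |mom (sg (Sn m)) (2 ^ (7 + m)) (7 + m)|
    < |mom (sg (thueMorse (7 + m))) (2 ^ (7 + m)) (7 + m)|
  | 0 => by
    show |mom (sg S7) (2 ^ 7) 7| < |mom (sg (thueMorse 7)) (2 ^ 7) 7|
    rw [S7_def, tm7_def]
    decide
  | m + 1 => by
    have h1 := (double (7 + m) (Sn m) (Sn_zero m)).2
    have h2 := (tm_double (7 + m) (tm_zero (7 + m))).2
    have h3 := Sn_lt m
    show |mom (sg (dbl (7 + m) (Sn m))) (2 ^ (7 + m + 1)) (7 + m + 1)|
      < |mom (sg (thueMorse (7 + m + 1))) (2 ^ (7 + m + 1)) (7 + m + 1)|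
    have h4 : (0 : ℤ) < ((7 + m + 1 : ℕ) : ℤ) * ((2 ^ (7 + m) : ℕ) : ℤ) := by positivity
    rw [h1, h2, abs_neg, abs_neg, abs_mul _ (mom (sg (Sn m)) _ _),
      abs_mul _ (mom (sg (thueMorse (7 + m))) _ _)]
    exact mul_lt_mul_of_pos_left h3 (abs_pos.2 h4.ne')

/-- For every `n ≥ 7` there is a partition of `{0, …, 2 ^ n - 1}` into two parts `S` and `T` with
property `P_n` whose defect is in absolute value strictly smaller than the defect of the
Thue-Morse partition (which has property `P_n` too). -/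
theorem result : ∀ n : ℕ, 7 ≤ n → ∃ S : Finset ℕ, S ⊆ range (2 ^ n) ∧ HasP n S ∧
    HasP n (thueMorse n) ∧ |defect n S| < |defect n (thueMorse n)| := by
  intro n hn
  obtain ⟨m, rfl⟩ := Nat.exists_eq_add_of_le hn
  have ht : thueMorse (7 + m) ⊆ range (2 ^ (7 + m)) := Finset.filter_subset _ _
  refine ⟨Sn m, Sn_subset m, (hasP_iff _ _ (Sn_subset m)).2 (Sn_zero m),
    (hasP_iff _ _ ht).2 (tm_zero _), ?_⟩
  rw [defect_eq _ _ (Sn_subset m), defect_eq _ _ ht]
  exact Sn_lt m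

end Pool.Agent.Results.MP_f4b4d0_co.ThueMorseNotMinimal
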